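import Mathlib

namespace Pool.Agent.Results.MP_671a46_co.PrescribedGap

open Function

/-- `CopsWin R n`: `n` cops have a winning strategy when a legal move of every player goes
from a vertex `u` to a vertex `v` with `R u v`. A strategy `c` sends a robber's run
`r : ℕ → V` (`r 0` his starting vertex, `r t` his vertex after his `t`-th move) to the
positions `c r t` of the cops after their `t`-th move (`c r 0` the starting positions), and
`c r t` depends only on `r 0, …, r (t - 1)`. -/
def CopsWin {V : Type} (R : V → V → Prop) (n : ℕ) : Prop :=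
  ∃ c : (ℕ → V) → ℕ → Fin n → V,
    (∀ r r' : ℕ → V, ∀ t, (∀ i < t, r i = r' i) → c r t = c r' t) ∧
    (∀ r t i, R (c r t i) (c r (t + 1) i)) ∧
    ∀ r : ℕ → V, (∀ t, R (r t) (r (t + 1))) →
      ∃ t i, c r t i = r t ∨ c r (t + 1) i = r t

/-! ### General facts on the game -/

section Game

variable {V : Type} {R : V → V → Prop}

lemma copsWin_mono {n n' : ℕ} (hn : 0 < n) (h : n ≤ n') (hw : CopsWin R n) :
    CopsWin R n' := by
  obtain ⟨c, hloc, hleg, hwin⟩ := hw
  refine ⟨fun r t i => c r t ⟨i.1 % n, Nat.mod_lt _ hn⟩, ?_, ?_, ?_⟩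
  · intro r r' t ht
    funext i
    simp only
    rw [hloc r r' t ht]
  · intro r t i
    exact hleg _ _ _
  · intro r hr
    obtain ⟨t, i, hti⟩ := hwin r hr
    refine ⟨t, ⟨i.1, lt_of_lt_of_le i.2 h⟩, ?_⟩
    have : (⟨i.1 % n, Nat.mod_lt _ hn⟩ : Fin n) = i := by
      apply Fin.ext
      simp [Nat.mod_eq_of_lt i.2]
    simpa only [this] using hti

lemma not_copsWin_zero (hr : ∃ r : ℕ → V, ∀ t, R (r t) (r (t + 1))) : ¬ CopsWin R 0 := by
  rintro ⟨c, -, -, hwin⟩
  obtain ⟨r, hr⟩ := hr
  obtain ⟨t, i, -⟩ := hwin r hr
  exact i.elim0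

/-- The robber evades `n` cops if he can keep an invariant `Safe`. -/
lemma not_copsWin_of_safe {n : ℕ} (v0 : V) (Safe : (Fin n → V) → V → Prop)
    (h0 : ∀ s : Fin n → V, ∃ r0, (∀ i, s i ≠ r0) ∧ Safe s r0)
    (h1 : ∀ c r, Safe c r → ∀ c' : Fin n → V, (∀ i, R (c i) (c' i)) →
      (∀ i, c' i ≠ r) ∧ ∃ r', R r r' ∧ (∀ i, c' i ≠ r') ∧ Safe c' r') :
    ¬ CopsWin R n := by
  rintro ⟨c, hloc, hleg, hwin⟩
  classical
  obtain ⟨r0, hr0, hs0⟩ := h0 (c (fun _ => v0) 0)
  let nxt : (Fin n → V) → V → V := fun c' r =>
    if h : ∃ r', R r r' ∧ (∀ i, c' i ≠ r') ∧ Safe c' r' then h.choose else r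
  let F : ℕ → ℕ → V := fun t => Nat.rec (fun _ => r0)
    (fun t f i => if i ≤ t then f i else nxt (c f (t + 1)) (f t)) t
  have hF0 : F 0 = fun _ => r0 := rfl
  have hFs : ∀ t, F (t + 1) =
      fun i => if i ≤ t then F t i else nxt (c (F t) (t + 1)) (F t t) := fun t => rfl
  let r : ℕ → V := fun t => F t t
  have hA : ∀ t, ∀ i ≤ t, F t i = r i := by
    intro t
    induction t with
    | zero =>
      intro i hi
      obtain rfl : i = 0 := by omega
      rfl
    | succ t ih =>
      intro i hi
      rcases Nat.lt_or_ge t i with h | h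
      · obtain rfl : i = t + 1 := by omega
        rfl
      · rw [hFs]
        simp only [h, if_true]
        exact ih i h
  have hB : ∀ t, c (F t) (t + 1) = c r (t + 1) := by
    intro t
    apply hloc
    intro i hi
    exact hA t i (by omega)
  have hr1 : ∀ t, r (t + 1) = nxt (c r (t + 1)) (r t) := by
    intro t
    show F (t + 1) (t + 1) = _
    rw [hFs]
    simp only [show ¬ (t + 1 ≤ t) by omega, if_false]
    rw [hB]
  have hC : ∀ t, Safe (c r t) (r t) ∧ (∀ i, c r t i ≠ r t) := by
    intro t
    induction t with
    | zero =>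
      have h : c r 0 = c (fun _ => v0) 0 := hloc _ _ _ (by intro i hi; omega)
      rw [h]
      exact ⟨hs0, hr0⟩
    | succ t ih =>
      have h := (h1 _ _ ih.1 (c r (t + 1)) (fun i => hleg r t i)).2
      have h2 : r (t + 1) = h.choose := by
        rw [hr1]
        simp only [nxt]
        rw [dif_pos h]
      rw [h2]
      exact ⟨h.choose_spec.2.2, h.choose_spec.2.1⟩
  have hD : ∀ t, R (r t) (r (t + 1)) := by
    intro t
    have h := (h1 _ _ (hC t).1 (c r (t + 1)) (fun i => hleg r t i)).2
    have h2 : r (t + 1) = h.choose := by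
      rw [hr1]
      simp only [nxt]
      rw [dif_pos h]
    rw [h2]
    exact h.choose_spec.1
  obtain ⟨t, i, h | h⟩ := hwin r hD
  · exact (hC t).2 i h
  · exact (h1 _ _ (hC t).1 (c r (t + 1)) (fun i => hleg r t i)).1 i h

/-- One more cop suffices when one vertex is added. -/
lemma copsWin_succ {V' : Type} {R' : V' → V' → Prop} {n : ℕ} (φ : V' → V)
    (hφ : ∀ a b, R' a b ↔ R (φ a) (φ b)) (u w : V)
    (hu : ∀ v, v ≠ u → ∃ a, φ a = v) (huw : R u w) (hwu : R w u) (d : V')
    (h : CopsWin R' n) : CopsWin R (n + 1) := by
  classical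
  obtain ⟨c, hloc, hleg, hwin⟩ := h
  let ψ : V → V' := fun v => if h : ∃ a, φ a = v then h.choose else d
  have hψ : ∀ v, v ≠ u → φ (ψ v) = v := by
    intro v hv
    simp only [ψ]
    rw [dif_pos (hu v hv)]
    exact (hu v hv).choose_spec
  refine ⟨fun r t => Fin.cons (if t % 2 = 0 then u else w)
    (fun i => φ (c (fun t => ψ (r t)) t i)), ?_, ?_, ?_⟩
  · intro r r' t ht
    have := hloc (fun t => ψ (r t)) (fun t => ψ (r' t)) t
      (by intro i hi; simp only [ht i hi])
    simp only [this]
  · intro r t i
    refine Fin.cases ?_ (fun i => ?_) i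
    · simp only [Fin.cons_zero]
      rcases Nat.mod_two_eq_zero_or_one t with h | h
      · rw [if_pos h, if_neg (by omega)]
        exact huw
      · rw [if_neg (by omega), if_pos (by omega)]
        exact hwu
    · simp only [Fin.cons_succ]
      exact (hφ _ _).1 (hleg _ _ _)
  · intro r hr
    by_cases hex : ∃ t, r t = u
    · obtain ⟨t, ht⟩ := hex
      refine ⟨t, 0, ?_⟩
      simp only [Fin.cons_zero]
      rcases Nat.mod_two_eq_zero_or_one t with h | h
      · left
        rw [if_pos h, ht]
      · right
        rw [if_pos (by omega), ht]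
    · have hex' : ∀ t, r t ≠ u := fun t ht => hex ⟨t, ht⟩
      obtain ⟨t, i, hti⟩ := hwin (fun t => ψ (r t)) (by
        intro t
        rw [hφ, hψ _ (hex' t), hψ _ (hex' (t + 1))]
        exact hr t)
      refine ⟨t, i.succ, ?_⟩
      simp only [Fin.cons_succ]
      rcases hti with h | h
      · left
        rw [h, hψ _ (hex' t)]
      · right
        rw [h, hψ _ (hex' t)]

/-- Positions from which the cops, to move, win within `k` rounds. -/
def WinIn (R : V → V → Prop) {n : ℕ} : ℕ → (Fin n → V) → V → Prop
  | 0, _, _ => False
  | k + 1, c, r => ∃ c' : Fin n → V, (∀ i, R (c i) (c' i)) ∧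
      ((∃ i, c' i = r) ∨ ∀ r', R r r' → (∃ i, c' i = r') ∨ WinIn R k c' r')

lemma copsWin_of_winIn (hser : ∀ v, ∃ w, R v w) {n : ℕ} (K : ℕ) (s : Fin n → V)
    (h : ∀ r0, (∃ i, s i = r0) ∨ WinIn R K s r0) : CopsWin R n := by
  classical
  let nxt : ℕ → (Fin n → V) → V → Fin n → V := fun k c r =>
    if h : ∃ c' : Fin n → V, (∀ i, R (c i) (c' i)) ∧
      ((∃ i, c' i = r) ∨ ∀ r', R r r' → (∃ i, c' i = r') ∨ WinIn R (k - 1) c' r')
    then h.choose else fun i => (hser (c i)).choose
  have hnl : ∀ k c r i, R (c i) (nxt k c r i) := by
    intro k c r i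
    simp only [nxt]
    split_ifs with h
    · exact h.choose_spec.1 i
    · exact (hser (c i)).choose_spec
  let C : (ℕ → V) → ℕ → Fin n → V := fun r t =>
    Nat.rec s (fun t c => nxt (K - t) c (r t)) t
  have hC0 : ∀ r, C r 0 = s := fun r => rfl
  have hCs : ∀ r t, C r (t + 1) = nxt (K - t) (C r t) (r t) := fun r t => rfl
  refine ⟨C, ?_, ?_, ?_⟩
  · intro r r' t
    induction t with
    | zero => intro _; rfl
    | succ t ih =>
      intro ht
      rw [hCs, hCs, ih (fun i hi => ht i (by omega)), ht t (by omega)]
  · intro r t i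
    rw [hCs]
    exact hnl _ _ _ _
  · intro r hr
    by_contra hcon
    have h1 : ∀ t i, C r t i ≠ r t := fun t i h => hcon ⟨t, i, Or.inl h⟩
    have h2 : ∀ t i, C r (t + 1) i ≠ r t := fun t i h => hcon ⟨t, i, Or.inr h⟩
    have h3 : ∀ t, t ≤ K → WinIn R (K - t) (C r t) (r t) := by
      intro t
      induction t with
      | zero =>
        intro _
        rcases h (r 0) with ⟨i, hi⟩ | h
        · exact absurd hi (h1 0 i)
        · exact h
      | succ t ih =>
        intro ht
        have hw := ih (by omega)
        obtain ⟨k, hk⟩ : ∃ k, K - t = k + 1 := ⟨K - t - 1, by omega⟩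
        rw [hk] at hw
        have hw' : ∃ c' : Fin n → V, (∀ i, R (C r t i) (c' i)) ∧
          ((∃ i, c' i = r t) ∨ ∀ r', R (r t) r' → (∃ i, c' i = r') ∨
            WinIn R (K - t - 1) c' r') := by
          rw [hk]
          exact hw
        have hc : C r (t + 1) = hw'.choose := by
          rw [hCs]
          simp only [nxt]
          rw [dif_pos hw']
        rcases hw'.choose_spec.2 with ⟨i, hi⟩ | h4
        · exact absurd (by rw [hc]; exact hi) (h2 t i)
        · rcases h4 (r (t + 1)) (hr t) with ⟨i, hi⟩ | h5
          · exact absurd (by rw [hc]; exact hi) (h1 (t + 1) i)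
          · rw [hc, show K - (t + 1) = K - t - 1 by omega]
            exact h5
    have := h3 K le_rfl
    rw [Nat.sub_self] at this
    exact this

end Game

/-! ### The graphs -/

/-- Points of the plane, one hub for each parallel class of lines, lines with their twins. -/
inductive Vert (c N : ℕ) (F : Type) : Type
  | pt (x y : F)
  | hub (i : Fin c)
  | ln (i : Fin c) (a : F) (s : Option (Fin N))

open Vert

section Graph

variable {c N : ℕ} {F : Type} [Field F]

/-- Incidence of points or hubs with lines. -/
def Inc (m : Fin c → F) : Vert c N F → Vert c N F → Prop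
  | .pt x y, .ln i a _ => y - m i * x = a
  | .hub j, .ln i _ _ => j = i
  | _, _ => False

/-- The vertices present: everything but the twins outside `E`. -/
def Pres (E : Finset (Fin c × F × Fin N)) : Vert c N F → Prop
  | .ln i a (some s) => (i, a, s) ∈ E
  | _ => True

def Gr (m : Fin c → F) (E : Finset (Fin c × F × Fin N)) :
    SimpleGraph {v : Vert c N F // Pres E v} where
  Adj u v := Inc m u.1 v.1 ∨ Inc m v.1 u.1
  symm := ⟨fun _ _ h => h.symm⟩
  loopless := ⟨by
    rintro ⟨v, hv⟩ h
    cases v <;> simp [Inc] at h⟩

def sd : Vert c N F → Bool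
  | .ln _ _ _ => true
  | _ => false

lemma Inc.sd_left {m : Fin c → F} {u v : Vert c N F} (h : Inc m u v) : sd u = false := by
  cases u <;> cases v <;> simp_all [Inc, sd]

lemma Inc.sd_right {m : Fin c → F} {u v : Vert c N F} (h : Inc m u v) : sd v = true := by
  cases u <;> cases v <;> simp_all [Inc, sd]

lemma adj_sd {m : Fin c → F} {E : Finset (Fin c × F × Fin N)}
    {u v : {v : Vert c N F // Pres E v}} (h : (Gr m E).Adj u v) : sd v.1 = !(sd u.1) := by
  rcases h with h | h
  · rw [h.sd_left, h.sd_right]; rfl
  · rw [h.sd_left, h.sd_right]; rfl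

variable {m : Fin c → F}

lemma exists_point [Fintype F] (hm : Injective m) {n : ℕ} (hn : n < Fintype.card F)
    (cc : Fin n → Vert c N F) (j : Fin c) (a : F) (hcls : ∀ i s, cc i ≠ .ln j a s) :
    ∃ x, ∀ i, cc i ≠ .pt x (a + m j * x) ∧ ¬ Inc m (.pt x (a + m j * x)) (cc i) := by
  by_contra hcon
  push Not at hcon
  choose f hf using hcon
  have hf' : ∀ x, cc (f x) = .pt x (a + m j * x) ∨ Inc m (.pt x (a + m j * x)) (cc (f x)) := by
    intro x
    by_cases h : cc (f x) = .pt x (a + m j * x)
    · exact Or.inl h
    · exact Or.inr (hf x h)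
  have hinj : Injective f := by
    intro x x' hxx
    have h1 := hf' x
    have h2 := hf' x'
    rw [← hxx] at h2
    have hc := hcls (f x)
    generalize cc (f x) = v at h1 h2 hc
    cases v with
    | pt u w =>
      simp only [Inc, or_false, Vert.pt.injEq] at h1 h2
      rw [← h1.1, h2.1]
    | hub i => simp [Inc] at h1
    | ln i b s =>
      simp only [Inc, reduceCtorEq, false_or] at h1 h2
      by_cases hij : i = j
      · subst hij
        exfalso
        apply hc s
        rw [← h1]
        congr 1
        ring
      · have h3 : (m j - m i) * (x - x') = 0 := by linear_combination h1 - h2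
        rcases mul_eq_zero.1 h3 with h | h
        · exact absurd (hm (sub_eq_zero.1 h)).symm hij
        · exact sub_eq_zero.1 h
  have := Fintype.card_le_of_injective f hinj
  rw [Fintype.card_fin] at this
  omega

/-- `Blk m v x y j`: a cop at `v` guards the line of class `j` through `(x, y)`. -/
def Blk (m : Fin c → F) : Vert c N F → F → F → Fin c → Prop
  | .hub i, _, _, j => i = j
  | .pt u v, x, y, j => v - m j * u = y - m j * x
  | .ln i a _, x, y, j => i = j ∧ a = y - m j * x

lemma exists_class (hm : Injective m) {n : ℕ} (S : Finset (Fin n)) (hn : S.card < c)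
    (cc : Fin n → Vert c N F) (x y : F) (h : ∀ i, cc i ≠ .pt x y) :
    ∃ j : Fin c, ∀ i ∈ S, ¬ Blk m (cc i) x y j := by
  by_contra hcon
  push Not at hcon
  choose f hfS hf using hcon
  have hinj : Injective (fun j => (⟨f j, hfS j⟩ : S)) := by
    intro j j' hjj
    have hjj' : f j = f j' := congrArg Subtype.val hjj
    have h1 := hf j
    have h2 := hf j'
    rw [← hjj'] at h2
    have hc := h (f j)
    generalize cc (f j) = v at h1 h2 hc
    cases v with
    | pt u w =>
      simp only [Blk] at h1 h2
      have h3 : (m j - m j') * (u - x) = 0 := by linear_combination h2 - h1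
      rcases mul_eq_zero.1 h3 with h | h
      · exact hm (sub_eq_zero.1 h)
      · exfalso
        apply hc
        have hux : u = x := sub_eq_zero.1 h
        subst hux
        have : w = y := by linear_combination h1
        rw [this]
    | hub i =>
      simp only [Blk] at h1 h2
      rw [← h1, h2]
    | ln i b s =>
      simp only [Blk] at h1 h2
      rw [← h1.1, h2.1]
  have := Fintype.card_le_of_injective _ hinj
  rw [Fintype.card_fin, Fintype.card_coe] at this
  omega

omit [Field F] in
lemma exists_hubfree {n : ℕ} (S : Finset (Fin n)) (hn : S.card < c)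
    (cc : Fin n → Vert c N F) : ∃ j : Fin c, ∀ i ∈ S, cc i ≠ .hub j := by
  by_contra hcon
  push Not at hcon
  choose f hfS hf using hcon
  have hinj : Injective (fun j => (⟨f j, hfS j⟩ : S)) := by
    intro j j' hjj
    have hjj' : f j = f j' := congrArg Subtype.val hjj
    have h1 := hf j
    have h2 := hf j'
    rw [← hjj', h1] at h2
    simpa using h2
  have := Fintype.card_le_of_injective _ hinj
  rw [Fintype.card_fin, Fintype.card_coe] at this
  omega

lemma exists_line [Fintype F] {n : ℕ} (hn : n < Fintype.card F)
    (cc : Fin n → Vert c N F) (j : Fin c) :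
    ∃ a, ∀ i, (∀ u v, cc i = .pt u v → v - m j * u ≠ a) ∧ ∀ s, cc i ≠ .ln j a s := by
  by_contra hcon
  push Not at hcon
  choose f hf using hcon
  have hf' : ∀ a, (∃ u v, cc (f a) = .pt u v ∧ v - m j * u = a) ∨ ∃ s, cc (f a) = .ln j a s := by
    intro a
    by_cases h : ∀ u v, cc (f a) = .pt u v → v - m j * u ≠ a
    · exact Or.inr (hf a h)
    · push Not at h
      obtain ⟨u, v, h1, h2⟩ := h
      exact Or.inl ⟨u, v, h1, h2⟩
  have hinj : Injective f := by
    intro a a' haa
    have h1 := hf' a
    have h2 := hf' a'
    rw [← haa] at h2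
    rcases h1 with ⟨u, v, h1, h1'⟩ | ⟨s, h1⟩
    · rcases h2 with ⟨u', v', h2, h2'⟩ | ⟨s', h2⟩
      · rw [h1, Vert.pt.injEq] at h2
        rw [← h1', ← h2', h2.1, h2.2]
      · rw [h1] at h2
        exact absurd h2 (by simp)
    · rcases h2 with ⟨u', v', h2, h2'⟩ | ⟨s', h2⟩
      · rw [h1] at h2
        exact absurd h2 (by simp)
      · rw [h1, Vert.ln.injEq] at h2
        exact h2.2.1
  have := Fintype.card_le_of_injective f hinj
  rw [Fintype.card_fin] at this
  omega

omit [Field F] in
lemma exists_twin {n : ℕ} (hn : n < N) (cc : Fin n → Vert c N F) (j : Fin c) (a : F) :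
    ∃ s : Fin N, ∀ i, cc i ≠ .ln j a (some s) := by
  by_contra hcon
  push Not at hcon
  choose f hf using hcon
  have hinj : Injective f := by
    intro s s' hss
    have h1 := hf s
    have h2 := hf s'
    rw [← hss, h1] at h2
    simpa using h2
  have := Fintype.card_le_of_injective f hinj
  rw [Fintype.card_fin, Fintype.card_fin] at this
  omega

/-- the robber's threats in the passive game -/
def Thr (m : Fin c → F) (v : Vert c N F) : Vert c N F → Prop
  | .pt x y => v = .pt x y ∨ Inc m (.pt x y) v
  | .ln j a _ => (∃ s, v = .ln j a s) ∨ Inc m v (.ln j a none)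
  | .hub _ => True

lemma passive_lower [Fintype F] (hm : Injective m) (E : Finset (Fin c × F × Fin N)) {n : ℕ}
    (hn : n < c) (hF : n < Fintype.card F) :
    ¬ CopsWin (fun u v => u = v ∨ (Gr m E).Adj u v) n := by
  refine not_copsWin_of_safe (⟨.pt 0 0, trivial⟩ : {v : Vert c N F // Pres E v})
    (fun cc r => (∀ j, r.1 ≠ .hub j) ∧ ∀ i, ¬ Thr m (cc i).1 r.1) ?_ ?_
  · intro s
    obtain ⟨j, hj⟩ := exists_hubfree (N := N) (F := F) (Finset.univ : Finset (Fin n))
      (by rw [Finset.card_univ, Fintype.card_fin]; exact hn) (fun i => (s i).1)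
    obtain ⟨a, ha⟩ := exists_line (m := m) hF (fun i => (s i).1) j
    refine ⟨⟨.ln j a none, trivial⟩, ?_, ?_, ?_⟩
    · intro i h
      exact (ha i).2 none (congrArg Subtype.val h)
    · intro j'
      simp
    · intro i h
      simp only [Thr] at h
      rcases h with ⟨s', h⟩ | h
      · exact (ha i).2 s' h
      · have h1 := hj i (Finset.mem_univ _)
        have h2 := (ha i).1
        generalize (s i).1 = v at h h1 h2
        cases v with
        | pt u w => exact h2 u w rfl h
        | hub i' =>
          simp only [Inc] at h
          exact h1 (by rw [h])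
        | ln _ _ _ => exact h
  · rintro cc ⟨r, hrE⟩ ⟨hr, hsafe⟩ cc' hleg
    simp only at hr hsafe
    have hne : ∀ i, cc' i ≠ ⟨r, hrE⟩ := by
      intro i h
      apply hsafe i
      have hl := hleg i
      rw [h] at hl
      rcases hl with hl | hl
      · rw [hl]
        cases r with
        | pt x y => exact Or.inl rfl
        | hub j => exact absurd rfl (hr j)
        | ln j a s => exact Or.inl ⟨s, rfl⟩
      · simp only [Gr] at hl
        cases r with
        | pt x y =>
          rcases hl with hl | hl
          · have := hl.sd_right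
            simp [sd] at this
          · exact Or.inr hl
        | hub j => exact absurd rfl (hr j)
        | ln j a s =>
          rcases hl with hl | hl
          · right
            generalize (cc i).1 = v at hl
            cases v with
            | pt u w => exact hl
            | hub i' => exact hl
            | ln _ _ _ => exact hl
          · have := hl.sd_left
            simp [sd] at this
    refine ⟨hne, ?_⟩
    cases r with
    | hub j => exact absurd rfl (hr j)
    | pt x y =>
      obtain ⟨j, hj⟩ := exists_class hm (Finset.univ : Finset (Fin n))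
        (by rw [Finset.card_univ, Fintype.card_fin]; exact hn) (fun i => (cc' i).1) x y
        (fun i h => hne i (Subtype.ext h))
      have hj' := fun i => hj i (Finset.mem_univ i)
      refine ⟨⟨.ln j (y - m j * x) none, trivial⟩, ?_, ?_, ?_, ?_⟩
      · right
        left
        simp [Inc]
      · intro i h
        apply hj' i
        rw [congrArg Subtype.val h]
        exact ⟨rfl, rfl⟩
      · intro j'
        simp
      · intro i h
        apply hj' i
        simp only [Thr] at h
        rcases h with ⟨s', h⟩ | h
        · rw [h]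
          exact ⟨rfl, rfl⟩
        · generalize (cc' i).1 = v at h
          cases v with
          | pt u w => exact h
          | hub i' => exact h
          | ln _ _ _ => exact h.elim
    | ln j a s =>
      have hcls : ∀ i s', (cc' i).1 ≠ .ln j a s' := by
        intro i s' h
        apply hsafe i
        rcases hleg i with hl | hl
        · left
          exact ⟨s', by rw [hl, h]⟩
        · right
          simp only [Gr] at hl
          rw [h] at hl
          rcases hl with hl | hl
          · generalize (cc i).1 = v at hl
            cases v with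
            | pt u w => exact hl
            | hub i' => exact hl
            | ln _ _ _ => exact hl
          · have := hl.sd_left
            simp [sd] at this
      obtain ⟨x, hx⟩ := exists_point hm hF (fun i => (cc' i).1) j a hcls
      refine ⟨⟨.pt x (a + m j * x), trivial⟩, ?_, ?_, ?_, ?_⟩
      · right
        right
        simp [Inc]
      · intro i h
        exact (hx i).1 (congrArg Subtype.val h)
      · intro j'
        simp
      · intro i h
        rcases h with h | h
        · exact (hx i).1 h
        · exact (hx i).2 h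

lemma active_lower [Fintype F] (hm : Injective m) (E : Finset (Fin c × F × Fin N))
    (hE : ∀ e, e ∈ E) {n : ℕ} (hn : n < 2 * c) (hF : n < Fintype.card F) (hN : n < N) :
    ¬ CopsWin (Gr m E).Adj n := by
  have hc : 0 < c := by omega
  refine not_copsWin_of_safe (⟨.pt 0 0, trivial⟩ : {v : Vert c N F // Pres E v})
    (fun cc r => (∀ j, r.1 ≠ .hub j) ∧ (∀ i, ¬ (Gr m E).Adj (cc i) r) ∧
      (Finset.univ.filter (fun i => sd (cc i).1 ≠ sd r.1)).card < c) ?_ ?_
  · intro s
    by_cases hS : (Finset.univ.filter (fun i => sd (s i).1 ≠ true)).card < c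
    · obtain ⟨j, hj⟩ := exists_hubfree (N := N) (F := F) _ hS (fun i => (s i).1)
      obtain ⟨a, ha⟩ := exists_line (m := m) hF (fun i => (s i).1) j
      refine ⟨⟨.ln j a none, trivial⟩, ?_, ?_, ?_, hS⟩
      · intro i h
        exact (ha i).2 none (congrArg Subtype.val h)
      · intro j'
        simp
      · rintro i (h | h)
        · have h1 := hj i
          have h2 := (ha i).1
          have h3 := h.sd_left
          simp only [Finset.mem_filter, Finset.mem_univ, true_and] at h1
          rw [h3] at h1
          replace h1 := h1 (by simp)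
          simp only at h
          generalize (s i).1 = v at h h1 h2
          cases v with
          | pt u w => exact h2 u w rfl h
          | hub i' =>
            simp only [Inc] at h
            exact h1 (by rw [h])
          | ln _ _ _ => exact h
        · have := h.sd_left
          simp [sd] at this
    · have hS' : (Finset.univ.filter (fun i => sd (s i).1 ≠ false)).card < c := by
        have h1 := Finset.card_filter_add_card_filter_not
          (s := (Finset.univ : Finset (Fin n))) (p := fun i => sd (s i).1 ≠ true)
        rw [Finset.card_univ, Fintype.card_fin] at h1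
        have h2 : (Finset.univ.filter (fun i => ¬ (sd (s i).1 ≠ true))) =
            (Finset.univ.filter (fun i => sd (s i).1 ≠ false)) := by
          ext i
          simp
        rw [h2] at h1
        omega
      obtain ⟨a, ha⟩ := exists_line (m := m) hF (fun i => (s i).1) ⟨0, hc⟩
      obtain ⟨x, hx⟩ := exists_point hm hF (fun i => (s i).1) ⟨0, hc⟩ a (fun i => (ha i).2)
      refine ⟨⟨.pt x (a + m ⟨0, hc⟩ * x), trivial⟩, ?_, ?_, ?_, hS'⟩
      · intro i h
        exact (hx i).1 (congrArg Subtype.val h)
      · intro j'
        simp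
      · rintro i (h | h)
        · have := h.sd_right
          simp [sd] at this
        · exact (hx i).2 h
  · rintro cc ⟨r, hrE⟩ ⟨hr, hsafe, hcard⟩ cc' hleg
    simp only at hr
    have hne : ∀ i, cc' i ≠ ⟨r, hrE⟩ := by
      intro i h
      apply hsafe i
      rw [← h]
      exact hleg i
    have hsd : ∀ i, sd (cc' i).1 = !(sd (cc i).1) := fun i => adj_sd (hleg i)
    refine ⟨hne, ?_⟩
    cases r with
    | hub j => exact absurd rfl (hr j)
    | pt x y =>
      have hS : (Finset.univ.filter (fun i => sd (cc' i).1 ≠ true)).card < c := by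
        refine lt_of_le_of_lt (Finset.card_le_card ?_) hcard
        intro i
        simp only [Finset.mem_filter, Finset.mem_univ, true_and]
        intro hi h
        apply hi
        rw [hsd i, h]
        rfl
      obtain ⟨j, hj⟩ := exists_class hm _ hS (fun i => (cc' i).1) x y
        (fun i h => hne i (Subtype.ext h))
      obtain ⟨s, hs⟩ := exists_twin hN (fun i => (cc' i).1) j (y - m j * x)
      refine ⟨⟨.ln j (y - m j * x) (some s), hE _⟩, ?_, ?_, ?_, ?_, hS⟩
      · left
        simp [Inc]
      · intro i h
        exact hs i (congrArg Subtype.val h)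
      · intro j'
        simp
      · rintro i (h | h)
        · have h3 := h.sd_left
          have h1 := hj i (by simp [h3])
          apply h1
          simp only at h
          generalize (cc' i).1 = v at h
          cases v with
          | pt u w => exact h
          | hub i' => exact h
          | ln _ _ _ => exact h.elim
        · have := h.sd_left
          simp [sd] at this
    | ln j a s =>
      have hcls : ∀ i s', (cc' i).1 ≠ .ln j a s' := by
        intro i s' h
        apply hsafe i
        have hl := hleg i
        simp only [Gr] at hl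
        rw [h] at hl
        left
        rcases hl with hl | hl
        · generalize (cc i).1 = v at hl
          cases v with
          | pt u w => exact hl
          | hub i' => exact hl
          | ln _ _ _ => exact hl.elim
        · have := hl.sd_left
          simp [sd] at this
      obtain ⟨x, hx⟩ := exists_point hm hF (fun i => (cc' i).1) j a hcls
      refine ⟨⟨.pt x (a + m j * x), trivial⟩, ?_, ?_, ?_, ?_, ?_⟩
      · right
        simp [Inc]
      · intro i h
        exact (hx i).1 (congrArg Subtype.val h)
      · intro j'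
        simp
      · rintro i (h | h)
        · have := h.sd_right
          simp [sd] at this
        · exact (hx i).2 h
      · refine lt_of_le_of_lt (Finset.card_le_card ?_) hcard
        intro i
        simp only [Finset.mem_filter, Finset.mem_univ, true_and]
        intro hi h
        apply hi
        rw [hsd i, h]
        rfl

lemma exists_nbr (hc : 0 < c) (E : Finset (Fin c × F × Fin N))
    (v : {v : Vert c N F // Pres E v}) : ∃ w, (Gr m E).Adj v w := by
  obtain ⟨v, hv⟩ := v
  cases v with
  | pt x y => exact ⟨⟨.ln ⟨0, hc⟩ (y - m ⟨0, hc⟩ * x) none, trivial⟩, Or.inl rfl⟩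
  | hub i => exact ⟨⟨.ln i 0 none, trivial⟩, Or.inl rfl⟩
  | ln i a s => exact ⟨⟨.hub i, trivial⟩, Or.inr rfl⟩

/-- Without extra twins `c` cops win the fully active game. -/
lemma active_upper (hc : 0 < c) : CopsWin (Gr m (∅ : Finset (Fin c × F × Fin N))).Adj c := by
  refine copsWin_of_winIn (exists_nbr hc _) 1 (fun i => ⟨.hub i, trivial⟩) ?_
  rintro ⟨r, hr⟩
  cases r with
  | hub j => exact Or.inl ⟨j, rfl⟩
  | ln j a s =>
    right
    classical
    refine ⟨fun i => if i = j then ⟨.ln j a s, hr⟩ else ⟨.ln i 0 none, trivial⟩, ?_, ?_⟩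
    · intro i
      by_cases hij : i = j
      · simp only [hij, if_true]
        exact Or.inl rfl
      · simp only [hij, if_false]
        exact Or.inl rfl
    · left
      exact ⟨j, by simp⟩
  | pt x y =>
    right
    refine ⟨fun i => ⟨.ln i (y - m i * x) none, trivial⟩, fun i => Or.inl rfl, Or.inr ?_⟩
    rintro ⟨r', hr'⟩ h
    left
    rcases h with h | h
    · cases r' with
      | pt _ _ => exact h.elim
      | hub _ => exact h.elim
      | ln j b s =>
        cases s with
        | none =>
          refine ⟨j, ?_⟩
          apply Subtype.ext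
          simp only [Inc] at h
          simp only [h]
        | some s =>
          simp only [Pres] at hr'
          exact absurd hr' (Finset.notMem_empty _)
    · have := h.sd_right
      simp [sd] at this

/-- A cop next to the robber (or on him) captures him. -/
lemma winIn_of_legal {V : Type} {R : V → V → Prop} (hrefl : ∀ v, R v v) {n : ℕ} (k : ℕ)
    (cc : Fin n → V) (r : V) (i : Fin n) (h : R (cc i) r) : WinIn R (k + 1) cc r := by
  classical
  refine ⟨update cc i r, ?_, Or.inl ⟨i, by simp⟩⟩
  intro i'
  by_cases hi : i' = i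
  · subst hi
    simpa using h
  · rw [update_of_ne hi]
    exact hrefl _

lemma passive_upper (hm : Injective m) (hc : 2 ≤ c) (E : Finset (Fin c × F × Fin N)) :
    CopsWin (fun u v => u = v ∨ (Gr m E).Adj u v) c := by
  classical
  set R : {v : Vert c N F // Pres E v} → {v : Vert c N F // Pres E v} → Prop :=
    fun u v => u = v ∨ (Gr m E).Adj u v with hR
  have hrefl : ∀ v, R v v := fun v => Or.inl rfl
  set i0 : Fin c := ⟨0, by omega⟩ with hi0
  set i1 : Fin c := ⟨1, by omega⟩ with hi1
  have h01 : i0 ≠ i1 := by
    intro h
    have := congrArg Fin.val h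
    simp [hi0, hi1] at this
  have hm01 : m i1 - m i0 ≠ 0 := by
    intro h
    exact h01 (hm (sub_eq_zero.1 h)).symm
  let P0 : Fin c → {v : Vert c N F // Pres E v} := fun i => ⟨.hub i, trivial⟩
  -- legal moves updating one cop
  have hup : ∀ (cc : Fin c → {v : Vert c N F // Pres E v}) (i : Fin c) (v),
      R (cc i) v → ∀ i', R (cc i') (update cc i v i') := by
    intro cc i v h i'
    by_cases hi : i' = i
    · subst hi
      simpa using h
    · rw [update_of_ne hi]
      exact hrefl _
  refine copsWin_of_winIn (fun v => ⟨v, hrefl v⟩) 4 P0 ?_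
  rintro ⟨r, hr⟩
  cases r with
  | hub j => exact Or.inl ⟨j, rfl⟩
  | ln j a s =>
    right
    exact winIn_of_legal hrefl 3 P0 _ j (Or.inr (Or.inl rfl))
  | pt x y =>
    right
    set a0 : F := y - m i0 * x with ha0
    let P1 := update P0 i0 (⟨.ln i0 a0 none, trivial⟩ : {v : Vert c N F // Pres E v})
    have hP10 : P1 i0 = ⟨.ln i0 a0 none, trivial⟩ := by simp [P1]
    have hP1 : ∀ j, j ≠ i0 → P1 j = ⟨.hub j, trivial⟩ := by
      intro j hj
      simp only [P1]
      rw [update_of_ne hj]
    refine ⟨P1, hup _ _ _ (Or.inr (Or.inl rfl)), Or.inr ?_⟩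
    rintro ⟨r1, hr1⟩ h1
    -- the robber on the line `(i0, a0)`
    have hon : ∀ (k : ℕ) (P : Fin c → {v : Vert c N F // Pres E v}),
        P i0 = ⟨.ln i0 a0 none, trivial⟩ → ∀ (s' : Fin N) (hs' : Pres E (.ln i0 a0 (some s')))
        (r' : {v : Vert c N F // Pres E v}), (Gr m E).Adj ⟨.ln i0 a0 (some s'), hs'⟩ r' →
        WinIn R (k + 1) P r' := by
      rintro k P hP s' hs' ⟨r', hr'⟩ h
      refine winIn_of_legal hrefl k P _ i0 ?_
      rw [hP]
      right
      rcases h with h | h
      · have := h.sd_left
        simp [sd] at this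
      · right
        cases r' with
        | pt u w => exact h
        | hub i' => exact h
        | ln _ _ _ => exact h.elim
    rcases h1 with h1 | h1
    · right
      refine winIn_of_legal hrefl 2 P1 _ i0 ?_
      rw [hP10, ← h1]
      right
      right
      rfl
    · rcases h1 with h1 | h1
      swap
      · have := h1.sd_right
        simp [sd] at this
      cases r1 with
      | pt _ _ => exact h1.elim
      | hub _ => exact h1.elim
      | ln j b s =>
        by_cases hj : j = i0
        · simp only [Inc] at h1
          have hb : b = a0 := by rw [← h1, hj]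
          obtain rfl := hb
          subst hj
          cases s with
          | none =>
            left
            exact ⟨i0, hP10⟩
          | some s =>
            right
            -- the robber is on a twin; he has to stay there
            let P2 := update P1 i1 (⟨.ln i1 0 none, trivial⟩ : {v : Vert c N F // Pres E v})
            have hP20 : P2 i0 = ⟨.ln i0 a0 none, trivial⟩ := by
              simp only [P2]
              rw [update_of_ne h01, hP10]
            have hP21 : P2 i1 = ⟨.ln i1 0 none, trivial⟩ := by simp [P2]
            refine ⟨P2, hup _ _ _ ?_, Or.inr ?_⟩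
            · rw [hP1 i1 h01.symm]
              exact Or.inr (Or.inl rfl)
            intro r2 h2
            right
            rcases h2 with h2 | h2
            swap
            · exact hon 1 P2 hP20 s hr1 r2 h2
            subst h2
            let X : F := a0 / (m i1 - m i0)
            let P3 := update P2 i1 (⟨.pt X (m i1 * X), trivial⟩ : {v : Vert c N F // Pres E v})
            have hP30 : P3 i0 = ⟨.ln i0 a0 none, trivial⟩ := by
              simp only [P3]
              rw [update_of_ne h01, hP20]
            have hP31 : P3 i1 = ⟨.pt X (m i1 * X), trivial⟩ := by simp [P3]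
            refine ⟨P3, hup _ _ _ ?_, Or.inr ?_⟩
            · rw [hP21]
              right
              right
              simp [Inc]
            intro r3 h3
            right
            rcases h3 with h3 | h3
            swap
            · exact hon 0 P3 hP30 s hr1 r3 h3
            subst h3
            refine winIn_of_legal hrefl 0 P3 _ i1 ?_
            rw [hP31]
            right
            left
            simp only [Inc, X]
            field_simp
        · right
          refine winIn_of_legal hrefl 2 P1 _ j ?_
          rw [hP1 j hj]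
          exact Or.inr (Or.inl rfl)

/-- Adding one twin costs at most one more cop. -/
lemma active_step (E : Finset (Fin c × F × Fin N)) [DecidableEq F] (e : Fin c × F × Fin N)
    {n : ℕ} (h : CopsWin (Gr m E).Adj n) : CopsWin (Gr m (insert e E)).Adj (n + 1) := by
  have hmono : ∀ v : Vert c N F, Pres E v → Pres (insert e E) v := by
    intro v hv
    cases v with
    | pt _ _ => trivial
    | hub _ => trivial
    | ln i a s =>
      cases s with
      | none => trivial
      | some s => exact Finset.mem_insert_of_mem hv
  obtain ⟨i, a, s⟩ := e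
  refine copsWin_succ (V' := {v : Vert c N F // Pres E v})
    (fun v => ⟨v.1, hmono v.1 v.2⟩) (fun a b => Iff.rfl)
    ⟨.ln i a (some s), Finset.mem_insert_self _ _⟩ ⟨.hub i, trivial⟩ ?_
    (Or.inr rfl) (Or.inl rfl) ⟨.pt 0 0, trivial⟩ h
  rintro ⟨v, hv⟩ hne
  have hv' : Pres E v := by
    cases v with
    | pt _ _ => trivial
    | hub _ => trivial
    | ln i' a' s' =>
      cases s' with
      | none => trivial
      | some s' =>
        simp only [Pres, Finset.mem_insert] at hv
        rcases hv with hv | hv
        · exfalso
          apply hne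
          simp only [Prod.mk.injEq] at hv
          obtain ⟨h1, h2, h3⟩ := hv
          subst h1 h2 h3
          rfl
        · exact hv
  exact ⟨⟨v, hv'⟩, rfl⟩

lemma gr_connected (hc : 0 < c) (E : Finset (Fin c × F × Fin N)) : (Gr m E).Connected := by
  have hpt : ∀ x y : F, (Gr m E).Reachable ⟨.pt x y, trivial⟩ ⟨.hub ⟨0, hc⟩, trivial⟩ := by
    intro x y
    have h1 : (Gr m E).Adj ⟨.pt x y, trivial⟩
      ⟨.ln ⟨0, hc⟩ (y - m ⟨0, hc⟩ * x) none, trivial⟩ := Or.inl rfl
    have h2 : (Gr m E).Adj ⟨.ln ⟨0, hc⟩ (y - m ⟨0, hc⟩ * x) none, trivial⟩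
      ⟨.hub ⟨0, hc⟩, trivial⟩ := Or.inr rfl
    exact h1.reachable.trans h2.reachable
  have hln : ∀ (i : Fin c) (a : F) (s : Option (Fin N)) (h : Pres E (.ln i a s)),
      (Gr m E).Reachable ⟨.ln i a s, h⟩ ⟨.hub ⟨0, hc⟩, trivial⟩ := by
    intro i a s h
    have h1 : (Gr m E).Adj ⟨.ln i a s, h⟩ ⟨.pt 0 a, trivial⟩ := by
      right
      simp [Inc]
    exact h1.reachable.trans (hpt 0 a)
  have hall : ∀ v, (Gr m E).Reachable v ⟨.hub ⟨0, hc⟩, trivial⟩ := by
    rintro ⟨v, hv⟩
    cases v with
    | pt x y => exact hpt x y
    | hub i =>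
      have h1 : (Gr m E).Adj ⟨.hub i, trivial⟩ ⟨.ln i 0 none, trivial⟩ := Or.inl rfl
      exact h1.reachable.trans (hln i 0 none trivial)
    | ln i a s => exact hln i a s hv
  have : Nonempty {v : Vert c N F // Pres E v} := ⟨⟨.pt 0 0, trivial⟩⟩
  exact ⟨fun u v => (hall u).trans (hall v).symm⟩

omit [Field F] in
lemma vert_finite [Finite F] : Finite (Vert c N F) := by
  refine Finite.of_injective
    (β := (F × F) ⊕ Fin c ⊕ (Fin c × F × Option (Fin N)))
    (fun v => match v with
      | .pt x y => Sum.inl (x, y)
      | .hub i => Sum.inr (Sum.inl i)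
      | .ln i a s => Sum.inr (Sum.inr (i, a, s))) ?_
  intro u v h
  cases u <;> cases v <;> simp_all

end Graph

theorem result : ∀ c k : ℕ, 0 < k → k < c →
    ∃ (V : Type) (_ : Finite V) (G : SimpleGraph V), G.Connected ∧ (∃ u v, G.Adj u v) ∧
      IsLeast {n | CopsWin (fun u v => u = v ∨ G.Adj u v) n} c ∧
      IsLeast {n | CopsWin G.Adj n} (c + k) := by
  classical
  intro c k hk hkc
  obtain ⟨p, hp, hpp⟩ := Nat.exists_infinite_primes (2 * c)
  have : Fact p.Prime := ⟨hpp⟩
  let F := ZMod p
  have hcard : Fintype.card F = p := ZMod.card p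
  let N := 2 * c
  obtain ⟨m⟩ : Nonempty (Fin c ↪ F) := by
    apply Function.Embedding.nonempty_of_card_le
    rw [Fintype.card_fin, hcard]
    omega
  have hm := m.injective
  -- discrete continuity
  have key : ∀ E : Finset (Fin c × F × Fin N), CopsWin (Gr m E).Adj (c + k - 1) ∨
      ∃ (E' : Finset (Fin c × F × Fin N)) (e : Fin c × F × Fin N),
        CopsWin (Gr m E').Adj (c + k - 1) ∧
        ¬ CopsWin (Gr m (insert e E')).Adj (c + k - 1) := by
    intro E
    induction E using Finset.induction_on with
    | empty => exact Or.inl (copsWin_mono (by omega) (by omega) (active_upper (by omega)))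
    | insert e E he ih =>
      rcases ih with ih | ih
      · by_cases h : CopsWin (Gr m (insert e E)).Adj (c + k - 1)
        · exact Or.inl h
        · exact Or.inr ⟨E, e, ih, h⟩
      · exact Or.inr ih
  obtain ⟨E, e, hw, hl⟩ := (key Finset.univ).resolve_left
    (active_lower hm Finset.univ (fun e => Finset.mem_univ e) (by omega)
      (by rw [hcard]; omega) (by omega))
  have : Finite (Vert c N F) := vert_finite
  refine ⟨{v : Vert c N F // Pres (insert e E) v}, inferInstance, Gr m (insert e E),
    gr_connected (by omega) _, ?_, ⟨?_, ?_⟩, ⟨?_, ?_⟩⟩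
  · obtain ⟨w, hw⟩ := exists_nbr (m := m) (by omega) (insert e E) ⟨.pt 0 0, trivial⟩
    exact ⟨_, w, hw⟩
  · exact passive_upper hm (by omega) _
  · intro n hn
    by_contra hlt
    exact passive_lower hm (insert e E) (n := n) (by omega) (by rw [hcard]; omega) hn
  · have := active_step E e hw
    rw [show c + k - 1 + 1 = c + k by omega] at this
    exact this
  · intro n hn
    by_contra hlt
    rcases Nat.eq_zero_or_pos n with h0 | h0
    · subst h0
      refine not_copsWin_zero ?_ hn
      obtain ⟨w, hw⟩ := exists_nbr (m := m) (by omega) (insert e E) ⟨.pt 0 0, trivial⟩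
      refine ⟨fun t => if t % 2 = 0 then ⟨.pt 0 0, trivial⟩ else w, ?_⟩
      intro t
      simp only
      rcases Nat.mod_two_eq_zero_or_one t with h | h
      · rw [if_pos h, if_neg (by omega)]
        exact hw
      · rw [if_neg (by omega), if_pos (by omega)]
        exact hw.symm
    · exact hl (copsWin_mono h0 (by omega) hn)

end Pool.Agent.Results.MP_671a46_co.PrescribedGap
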